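import Mathlib
import Pool.Agent.H852.QP.Hom
import Pool.Agent.W610.NearX

set_option autoImplicit false

/-!
# Uniform fat points: `AH₂(d)` for all degrees but at most one, `m ≤ exp (r ^ (1 / 1000) / 2)`

For every `ε > 0` there is an `N` such that for all `r ≥ N`, all multiplicities
`1 ≤ m ≤ exp (r ^ (1 / 1000) / 2)` and a general set `Y` of `r` points of the complex projective
plane, the scheme `m Y` is `AH₂(d)` for every `d` with `|2 d + 3 - √r - 2 √r m| ≥ ε`, that is, for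
all `d` with at most one exception (at most `ε / 2` away from `√r m + (√r - 3) / 2`).
-/

namespace Pool.Agent.Results.MP_8707bd_ag.AllDegreesButOneExponential

open MvPolynomial

/-- The ideal `I_Y ^ (m)` of the points `(Y i 0 : Y i 1 : 1)` with multiplicity `m`. -/
noncomputable def fat {r : ℕ} (Y : Fin r → Fin 2 → ℂ) (m : ℕ) : Ideal (MvPolynomial (Fin 3) ℂ) :=
  ⨅ i : Fin r, (Ideal.span ({X 0 - C (Y i 0) * X 2, X 1 - C (Y i 1) * X 2} :
    Set (MvPolynomial (Fin 3) ℂ))) ^ m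

/-- The Hilbert function `H_{R/J}(d) = dim R_d - dim [J]_d`. -/
noncomputable def hilb (J : Ideal (MvPolynomial (Fin 3) ℂ)) (d : ℕ) : ℕ :=
  Module.finrank ℂ ↥(homogeneousSubmodule (Fin 3) ℂ d) -
    Module.finrank ℂ ↥(homogeneousSubmodule (Fin 3) ℂ d ⊓ Submodule.restrictScalars ℂ J)

theorem result (ε : ℝ) (hε : 0 < ε) : ∃ N : ℕ, ∀ r : ℕ, N ≤ r → ∀ m : ℕ, 0 < m →
    (m : ℝ) ≤ Real.exp ((r : ℝ) ^ (1 / 1000 : ℝ) / 2) →
    ∃ F : MvPolynomial (Fin r × Fin 2) ℂ, F ≠ 0 ∧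
      ∀ Y : Fin r → Fin 2 → ℂ,
        MvPolynomial.eval (fun ij : Fin r × Fin 2 => Y ij.1 ij.2) F ≠ 0 →
        ∀ d : ℕ, ε ≤ |2 * (d : ℝ) + 3 - Real.sqrt r - 2 * (Real.sqrt r * m)| →
          hilb (fat Y m) d = min ((d + 2).choose 2) (r * (m + 1).choose 2) := by
  obtain ⟨N, hN100, hN⟩ := Pool.Agent.W610.near_uniformX hε
  refine ⟨N, fun r hr m hm hmX => ?_⟩
  obtain ⟨F, hF, hF'⟩ := hN ℂ r hr m hm hmX (fun _ => m) (fun _ => Or.inl rfl)
  refine ⟨F.map (algebraMap ℚ ℂ), Pool.Agent.H932R3.map_ne_zero_of hF, fun Y hY d hd => ?_⟩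
  rw [MvPolynomial.eval_map] at hY
  have h0 : 0 < r := by omega
  have h1 : Pool.Agent.H932R6.WinE r (∑ _a : Fin r, (((fun _ : Fin r => m) _a : ℕ) : ℝ)) ε d := by
    have h2 := Pool.Agent.H932R6.WinE.uni (m := m) h0 hd
    have h3 : ∑ _a : Fin r, (((fun _ : Fin r => m) _a : ℕ) : ℝ) = r * m := by
      rw [Finset.sum_const, Finset.card_univ, Fintype.card_fin, nsmul_eq_mul]
    rw [h3]
    exact h2
  have h2 := hF' Y hY d h1
  unfold Pool.Agent.H932R3.ExpDim at h2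
  rw [Finset.sum_const, Finset.card_univ, Fintype.card_fin, smul_eq_mul] at h2
  unfold hilb fat
  rw [h2, Pool.Agent.H852.QP.finrank_hom]
  omega

end Pool.Agent.Results.MP_8707bd_ag.AllDegreesButOneExponential
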